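import Pool.Agent.Helper119.TH.Main

/-! MP_00a7c6_gt: the moduli space of the once-punctured torus contains a dense Thurston
geodesic. -/

namespace Pool.Agent.Results.MP_00a7c6_gt.PuncturedTorus

open Pool.Agent.Helper119.TH

theorem result :
    ∃ G : ℝ → Teich, (∀ s t : ℝ, s ≤ t → dTh (G s) (G t) = t - s) ∧
      DenseRange (fun t => toModuli (G t)) :=
  main

end Pool.Agent.Results.MP_00a7c6_gt.PuncturedTorus
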